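import Pool.Agent.Helper68.TG.GoalsM
import Pool.Agent.Helper44.ZH.NRH
import Pool.Agent.Helper20.TG.GENP

/-!
# Project TG (MP_a41896_nt), packet TG-M-MGENP
-/

set_option autoImplicit false

open MvPolynomial

namespace Pool.Agent.Helper24.TG.MGENP

open Pool.Agent.Helper68.TG.M
open Pool.Agent.Helper20.TG.GENP (exists_rn)

theorem aeval_MP {K σ Ω : Type} [Field K] [Field Ω] [Algebra K Ω] (A B : Polynomial K) (b c : σ)
    (P : σ → Ω) :
    aeval P (MP A B b c) = Polynomial.aeval (P b) B * P c - Polynomial.aeval (P b) A := by
  unfold MP
  rw [map_sub, map_mul, ← Polynomial.aeval_algHom_apply, ← Polynomial.aeval_algHom_apply,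
    aeval_X, aeval_X]

theorem eval_MP {K σ : Type} [Field K] (A B : Polynomial K) (b c : σ) (P : σ → K) :
    eval P (MP A B b c) = Polynomial.eval (P b) B * P c - Polynomial.eval (P b) A := by
  have h := aeval_MP A B b c P
  rw [Polynomial.coe_aeval_eq_eval] at h
  rw [← h]
  rfl

theorem t_MGENP (h1 : Pool.Agent.Helper68.TG.M.MGENT) (h2 : Pool.Agent.Helper92.ZH.RESE) :
    Pool.Agent.Helper68.TG.M.MGENP := by
  intro K _ _ A B hAB σ _ _ b Z' hZ'
  classical
  set g : MvPolynomial (Option σ) K := MP A B (some b) none with hg
  set ρ : σ → Option σ := fun i => if i = b then none else some i with hρ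
  have hρi : Function.Injective ρ := by
    intro i j hij
    simp only [hρ] at hij
    split_ifs at hij with hi hj hj
    · rw [hi, hj]
    · exact Option.some_injective _ hij
  have hB0 : B ≠ 0 := by
    intro hB
    have hc := hAB.cop
    rw [hB, isCoprime_zero_right] at hc
    have hd := hAB.deg
    have := Polynomial.natDegree_eq_zero_of_isUnit hc
    omega
  set Q : MvPolynomial (Option σ) K := rename ρ Z' with hQ
  obtain ⟨C0, -, H⟩ := h2 K (Option σ) (Finset.univ.sup fun h => g.degreeOf h)
  have hdeg : 1 ≤ g.degreeOf none := by
    by_contra hcon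
    have h0 : g.degreeOf none = 0 := by omega
    obtain ⟨q, hq⟩ := exists_rn g h0
    obtain ⟨r, hr⟩ : ∃ r : K, Polynomial.eval r B ≠ 0 := by
      by_contra hno
      push_neg at hno
      apply hB0
      apply Polynomial.funext
      intro r
      rw [hno r, Polynomial.eval_zero]
    have ev : ∀ s : K, Polynomial.eval r B * s - Polynomial.eval r A =
        eval (fun _ : σ => r) q := by
      intro s
      have e1 : eval (fun o : Option σ => o.elim s (fun _ : σ => r)) g =
          Polynomial.eval r B * s - Polynomial.eval r A := by
        rw [hg, eval_MP]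
        rfl
      rw [← e1, ← hq, eval_rename]
      rfl
    have a0 := ev 0
    have a1 := ev 1
    apply hr
    have e : (Polynomial.eval r B * 1 - Polynomial.eval r A) -
        (Polynomial.eval r B * 0 - Polynomial.eval r A) = Polynomial.eval r B := by ring
    rw [a0, a1, sub_self] at e
    exact e.symm
  set N0 := Q.degreeOf none with hN0
  set N := max 1 (Finset.univ.sup fun h => Q.degreeOf h) with hN
  have hle : ∀ h, Q.degreeOf h ≤ N := fun h =>
    (Finset.le_sup (f := fun h => Q.degreeOf h) (Finset.mem_univ h)).trans (le_max_right _ _)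
  obtain ⟨R, hR0, -, -, ⟨α, β, hαβ⟩, hnv⟩ := H none g Q N0 N
    (fun h => Finset.le_sup (f := fun h => g.degreeOf h) (Finset.mem_univ h)) hdeg le_rfl
    (hle none) (le_max_left _ _) hle
  obtain ⟨Z, hZ⟩ := exists_rn R hR0
  refine ⟨Z, ?_, ?_⟩
  · rintro rfl
    rw [map_zero] at hZ
    obtain ⟨Ω, _, _, _, x, hx⟩ := Pool.Agent.Helper44.ZH.NRH.exists_generic K σ
    have hupd : ∀ s : Ω, Function.update (fun o : Option σ => o.elim 0 x) none s =
        fun o : Option σ => o.elim s x := by
      intro s
      funext o
      cases o with
      | none => simp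
      | some i => simp
    refine hnv Ω (fun o : Option σ => o.elim 0 x) ?_ ?_ ?_
    · intro p hp _ hp0
      obtain ⟨q, hq⟩ := exists_rn p hp0
      rw [← hq, aeval_rename]
      intro hz
      have hq0 : q = 0 := by
        refine (injective_iff_map_eq_zero _).1 hx q ?_
        exact hz
      rw [hq0, map_zero] at hq
      exact hp hq.symm
    · intro s hs
      rw [hupd] at hs ⊢
      rw [hg, aeval_MP] at hs
      have hind := h1 K A B hAB σ Ω x s b hx (sub_eq_zero.1 hs)
      rw [hQ, aeval_rename]
      have e : (fun o : Option σ => o.elim s x) ∘ ρ = Function.update x b s := by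
        funext i
        simp only [hρ, Function.comp]
        by_cases hi : i = b
        · subst hi
          simp
        · rw [if_neg hi, Function.update_of_ne hi]
          rfl
      rw [e]
      intro hz
      exact hZ' ((injective_iff_map_eq_zero _).1 hind Z' hz)
    · rw [← hZ, map_zero]
  · intro x y hxy hev
    have e1 : eval (fun o : Option σ => o.elim y x) g = 0 := by
      rw [hg, eval_MP]
      exact sub_eq_zero.2 hxy
    have e2 : eval (fun o : Option σ => o.elim y x) Q = 0 := by
      rw [hQ, eval_rename]
      have e : (fun o : Option σ => o.elim y x) ∘ ρ = Function.update x b y := by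
        funext i
        simp only [hρ, Function.comp]
        by_cases hi : i = b
        · subst hi
          simp
        · rw [if_neg hi, Function.update_of_ne hi]
          rfl
      rw [e]
      exact hev
    have e3 : eval (fun o : Option σ => o.elim y x) R = 0 := by
      rw [hαβ, map_add, map_mul, map_mul, e1, e2, mul_zero, mul_zero, add_zero]
    rw [← hZ, eval_rename] at e3
    exact e3

end Pool.Agent.Helper24.TG.MGENP
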